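import Mathlib
import Pool.Agent.OMG.Fin

/-!
# Sums of omega(n) over 1 and 3 mod 4: the predicted bias is attained at every scale

`Pool.OMG.S a x` is the sum of `omega(n)` over `1 <= n <= x`, `n = a mod 4`, and `Pool.OMG.Lhalf` is
`L(1/2, chi_{-4}) = sum_k (1/sqrt(4k+1) - 1/sqrt(4k+3)) > 0`. The theorem is unconditional: for every
`eps > 0` and every sufficiently large `X` there is an integer `n` in `[X, X^(1+eps)]` with
`S_3(n) - S_1(n) = (L(1/2, chi_{-4}) + O(eps)) sqrt n / log n`; in particular `S_1(n) < S_3(n)` for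
some `n` in each of these intervals.
-/

set_option autoImplicit false

namespace Pool.Agent.Results.MP_e44ca4_nt.EveryScale

open Pool.OMG

theorem result (ε : ℝ) (hε : 0 < ε) : ∃ X₀ : ℝ, ∀ X : ℝ, X₀ ≤ X → ∃ n : ℕ,
    X ≤ n ∧ (n : ℝ) ≤ X ^ (1 + ε) ∧
      |S 3 n - S 1 n - Lhalf * √(n : ℝ) / Real.log n| ≤ ε * √(n : ℝ) / Real.log n :=
  main ε hε

end Pool.Agent.Results.MP_e44ca4_nt.EveryScale
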