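import Mathlib
import Pool.Agent.Helper76.OMM.Grh

/-!
# Sums of omega(n) over 1 and 3 mod 4: the predicted inequality in the mean is equivalent to the
# Riemann hypothesis for `L(s, chi_{-4})`

`Pool.OMG.S a x` is the sum of `omega(n)` over `1 <= n <= x`, `n = a mod 4`; `Pool.OMM.GRH` says that
`L(s, chi_{-4})` has no zero with `Re s > 1/2`; `Pool.OMM.Mn s k` is the integral of
`(S_3(x) - S_1(x)) (log x)^k x^(-s-1)` over `x > 1`; `Pool.OMG.Lhalf = L(1/2, chi_{-4}) > 0`.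
GRH follows from the one-sided bounds `S_1(x) - S_3(x) <= C x^(1/2+eps)` (in particular from
`S_1(x) < S_3(x)` for all large `x`), and from the positivity of `Mn s k` for all large `k`, for every
`s > 1`; and GRH implies that `Mn s k` is asymptotic to `L(1/2, chi_{-4}) (k-1)!/(s-1/2)^k`.
-/

set_option autoImplicit false

namespace Pool.Agent.Results.MP_e44ca4_nt.GRHCriterion

open Pool.OMG Pool.OMM Filter Topology

theorem result :
    (((∀ ε : ℝ, 0 < ε → ∃ C x0 : ℝ, ∀ x : ℝ, x0 ≤ x → S 1 x - S 3 x ≤ C * x ^ (1 / 2 + ε)) ∨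
      (∀ s : ℝ, 1 < s → ∀ᶠ k : ℕ in atTop, 0 < Mn s k)) → GRH) ∧
    (GRH → ∀ s : ℝ, 1 < s →
      Tendsto (fun k : ℕ => Mn s k / (((k - 1).factorial : ℝ) / (s - 1 / 2) ^ k)) atTop
        (𝓝 Lhalf)) :=
  ⟨fun h => h.elim grh_of_one_sided grh_of_pos, asy_of_grh⟩

end Pool.Agent.Results.MP_e44ca4_nt.GRHCriterion
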