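import Mathlib
import Pool.Agent.OMH.Fin

/-!
# Sums of omega(n) over 1 and 3 mod 4: the predicted bias holds for X^(1-eps) integers up to X

`Pool.OMG.S a x` is the sum of `omega(n)` over `1 <= n <= x`, `n = a mod 4`, and `Pool.OMG.Lhalf` is
`L(1/2, chi_{-4}) = sum_k (1/sqrt(4k+1) - 1/sqrt(4k+3)) > 0`. The theorem is unconditional: for every
`c < L(1/2, chi_{-4})` and every `eps > 0`, for every sufficiently large `X` at least `X^(1-eps)` of
the integers `1 <= n <= X` satisfy `S_3(n) - S_1(n) > c sqrt n / log n`.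
-/

set_option autoImplicit false

namespace Pool.Agent.Results.MP_e44ca4_nt.MostScales

open Pool.OMG Finset

theorem result (c ε : ℝ) (hc : c < Lhalf) (hε : 0 < ε) : ∃ X₀ : ℝ, ∀ X : ℝ, X₀ ≤ X →
    X ^ (1 - ε) ≤ (((Icc 1 ⌊X⌋₊).filter (fun n : ℕ =>
      c * √(n : ℝ) / Real.log n < S 3 n - S 1 n)).card : ℝ) :=
  Pool.OMH.main hc hε

end Pool.Agent.Results.MP_e44ca4_nt.MostScales
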