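import Mathlib
import Pool.Agent.Helper76.OMM.Uni

/-!
# Sums of omega(n) over 1 and 3 mod 4: the predicted bias holds in weighted means at every scale

`Pool.OMG.S a x` is the sum of `omega(n)` over `1 <= n <= x`, `n = a mod 4`, and `Pool.OMG.Lhalf` is
`L(1/2, chi_{-4}) = sum_k (1/sqrt(4k+1) - 1/sqrt(4k+3)) > 0`. The theorem is unconditional: the means
of `S_3(x) - S_1(x)` with the weights `(log x)^k x^(-s-1)` are asymptotic, as `k` tends to infinity
and uniformly in `1 < s <= 45`, to the means of `L(1/2, chi_{-4}) sqrt x / log x`, which are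
`L(1/2, chi_{-4}) (k-1)! / (s-1/2)^k`. The weights are concentrated near `log x = k/(s-1/2)`.
-/

set_option autoImplicit false

namespace Pool.Agent.Results.MP_e44ca4_nt.WeightedMeans

open Pool.OMG MeasureTheory

theorem result (ε : ℝ) (hε : 0 < ε) : ∃ K : ℕ, ∀ k : ℕ, K ≤ k → ∀ s : ℝ, 1 < s → s ≤ 45 →
    |(∫ x in Set.Ioi (1 : ℝ), (S 3 x - S 1 x) * Real.log x ^ k * x ^ (-s - 1)) -
      Lhalf * (((k - 1).factorial : ℝ) / (s - 1 / 2) ^ k)| ≤
      ε * (((k - 1).factorial : ℝ) / (s - 1 / 2) ^ k) :=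
  Pool.OMM.main ε hε

end Pool.Agent.Results.MP_e44ca4_nt.WeightedMeans
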